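import Mathlib

/-! The arithmetic of the optimal diameter. -/

set_option autoImplicit false

namespace Pool.Agent.P.MP_aedb6c_co

/-- Three times the least possible sum of distances over ordered pairs. -/
def FF (n D : ℕ) : ℕ :=
  D * (D + 1) * (D + 2) + 3 * ((n - (D + 1)) * ((D + 1) ^ 2 / 2 + 2)) +
    3 * ((n - (D + 1)) * (n - (D + 1) - 1))

/-- The optimal diameters. -/
def Opt (n k D : ℕ) : Prop :=
  (n ∉ ({4, 10, 21, 54, 134} : Finset ℕ) ∧ D = 2 * k) ∨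
  (n ∈ ({4, 5, 10, 11, 21, 54, 134} : Finset ℕ) ∧ D + 1 = 2 * k)

instance (n k D : ℕ) : Decidable (Opt n k D) := by unfold Opt; infer_instance

def chk (n k D0 : ℕ) : Bool :=
  decide (2 ≤ D0) && decide (D0 + 1 ≤ n) && (List.range n).all fun D =>
    decide (D = 0) || decide (FF n D0 * D < FF n D * D0) ||
      (decide (FF n D0 * D = FF n D * D0) && decide (Opt n k D))

def chkAll : Bool :=
  (List.range 208).all fun n => (List.range 11).all fun k =>
    decide (n < 3) || decide (6 * k ^ 2 + 2 * k + 1 < 3 * n) ||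
      decide (3 * n ≤ 6 * (k - 1) ^ 2 + 2 * (k - 1) + 1) ||
      ((!decide (Opt n k (2 * k)) || chk n k (2 * k)) &&
        (!decide (Opt n k (2 * k - 1)) || chk n k (2 * k - 1)))

theorem chkAll_true : chkAll = true := by decide +kernel

theorem small {n k D0 : ℕ} (hn : 3 ≤ n) (h1 : 3 * n ≤ 6 * k ^ 2 + 2 * k + 1)
    (h2 : 6 * (k - 1) ^ 2 + 2 * (k - 1) + 1 < 3 * n) (hk : k ≤ 10) (h0 : Opt n k D0) :
    2 ≤ D0 ∧ D0 + 1 ≤ n ∧ ∀ D, 1 ≤ D → D + 1 ≤ n →
      FF n D0 * D < FF n D * D0 ∨ (FF n D0 * D = FF n D * D0 ∧ Opt n k D) := by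
  have hn' : n < 208 := by nlinarith
  have h := chkAll_true
  simp only [chkAll, List.all_eq_true, List.mem_range] at h
  have h3 := h n hn' k (by omega)
  simp only [Bool.or_eq_true, Bool.and_eq_true, decide_eq_true_eq, Bool.not_eq_true',
    decide_eq_false_iff_not] at h3
  have h4 : chk n k D0 = true := by
    rcases h3 with ((h3 | h3) | h3) | ⟨h5, h6⟩
    · omega
    · omega
    · omega
    · have : D0 = 2 * k ∨ D0 = 2 * k - 1 := by
        rcases h0 with h0 | h0 <;> omega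
      rcases this with rfl | rfl
      · exact h5.resolve_left (not_not.2 h0)
      · exact h6.resolve_left (not_not.2 h0)
  simp only [chk, Bool.or_eq_true, Bool.and_eq_true, decide_eq_true_eq, List.all_eq_true,
    List.mem_range] at h4
  refine ⟨h4.1.1, h4.1.2, fun D hD hDn => ?_⟩
  rcases h4.2 D (by omega) with (h5 | h5) | h5
  · omega
  · exact Or.inl h5
  · exact Or.inr h5

/-- The polynomial form, `e = 1` for even and `e = 0` for odd diameter. -/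
def Ph (e N D : ℤ) : ℤ :=
  -D ^ 3 + (3 * N + 3) * D ^ 2 + (1 - 6 * N + 3 * e) * D + (N - 1) * (6 * N + 3 - 3 * e)

theorem FF_cast {n D : ℕ} (h : D + 1 ≤ n) :
    2 * (FF n D : ℤ) = Ph (1 - (D % 2 : ℕ)) n D := by
  obtain ⟨r, rfl⟩ := Nat.exists_eq_add_of_le h
  have e1 : D + 1 + r - (D + 1) = r := by omega
  have e2 : ((r * (r - 1) : ℕ) : ℤ) = r * (r - 1) := by
    cases r with
    | zero => simp
    | succ r => simp
  have e3 : 2 * (((D + 1) ^ 2 / 2 : ℕ) : ℤ) = (D + 1) ^ 2 - (1 - (D % 2 : ℕ)) := by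
    rcases Nat.even_or_odd' D with ⟨j, rfl | rfl⟩
    · have a1 : (2 * j + 1) ^ 2 / 2 = 2 * j ^ 2 + 2 * j := by
        have : (2 * j + 1) ^ 2 = 2 * (2 * j ^ 2 + 2 * j) + 1 := by ring
        omega
      have a2 : 2 * j % 2 = 0 := by omega
      rw [a1, a2]; push_cast; ring
    · have a1 : (2 * j + 1 + 1) ^ 2 / 2 = 2 * (j + 1) ^ 2 := by
        have : (2 * j + 1 + 1) ^ 2 = 2 * (2 * (j + 1) ^ 2) := by ring
        omega
      have a2 : (2 * j + 1) % 2 = 1 := by omega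
      rw [a1, a2]; push_cast; ring
  unfold FF Ph
  rw [e1]
  generalize ((D + 1) ^ 2 / 2 : ℕ) = c at e3 ⊢
  generalize (D % 2 : ℕ) = ε at e3 ⊢
  rw [Nat.cast_add, Nat.cast_mul 3 (r * (r - 1)), e2]
  push_cast
  linear_combination (3 * (r : ℤ)) * e3

/-- A convex quadratic that is negative at both ends of an interval. -/
theorem conv {M lo hi b c : ℤ} (h1 : lo ≤ M) (h2 : M ≤ hi) (h3 : lo ^ 2 - b * lo + c < 0)
    (h4 : hi ^ 2 - b * hi + c < 0) : M ^ 2 - b * M + c < 0 := by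
  rcases le_total (M + lo) b with h | h
  · nlinarith [mul_nonneg (sub_nonneg.2 h1) (sub_nonneg.2 h)]
  · nlinarith [mul_nonneg (sub_nonneg.2 h2) (show 0 ≤ M + hi - b by linarith)]

theorem bigZ {N k D e : ℤ} (hk : 11 ≤ k) (h1 : 3 * N ≤ 6 * k ^ 2 + 2 * k + 1)
    (h2 : 6 * k ^ 2 - 10 * k + 6 ≤ 3 * N) (hD : 1 ≤ D) (hDN : D + 1 ≤ N) (he : e = 0 ∨ e = 1)
    (hne : D ≠ 2 * k) (ho : D = 2 * k + 1 ∨ D = 2 * k - 1 → e = 0) :
    Ph 1 N (2 * k) * D < Ph e N D * (2 * k) := by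
  obtain ⟨j, rfl⟩ : ∃ j, k = j + 11 := ⟨k - 11, by ring⟩
  have hj : 0 ≤ j := by linarith
  set k := j + 11 with hkj
  have hj2 : 0 ≤ j ^ 2 := by positivity
  have hj3 : 0 ≤ j ^ 3 := by positivity
  have hj4 : 0 ≤ j ^ 4 := by positivity
  have hN : 4 * k + 4 ≤ N := by nlinarith
  have hle : Ph 1 N D ≤ Ph e N D := by
    rcases he with rfl | rfl
    · unfold Ph; nlinarith
    · exact le_rfl
  have key : Ph 1 N D * (2 * k) - Ph 1 N (2 * k) * D =
      (D - 2 * k) * (D * (2 * k) * (3 * N + 3 - D - 2 * k) - 6 * N * (N - 1)) := by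
    unfold Ph; ring
  have hk0 : 0 < 2 * k := by linarith
  by_cases c1 : 2 * k + 2 ≤ D
  · have a1 : (3 * N) ^ 2 - (3 + 6 * k ^ 2 + 6 * k) * (3 * N) + 6 * k * (k + 1) * (4 * k - 1) < 0 := by
      refine conv h2 h1 ?_ ?_
      · rw [hkj]; nlinarith
      · rw [hkj]; nlinarith
    have a2 : (2 * k + 2) * (3 * N + 3 - (2 * k + 2) - 2 * k) ≤ D * (3 * N + 3 - D - 2 * k) := by
      nlinarith [mul_nonneg (sub_nonneg.2 c1) (show 0 ≤ 3 * N + 1 - D - 4 * k by linarith)]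
    have a3 : 0 < D * (2 * k) * (3 * N + 3 - D - 2 * k) - 6 * N * (N - 1) := by
      nlinarith [mul_le_mul_of_nonneg_left a2 hk0.le]
    have a4 := mul_pos (show 0 < D - 2 * k by linarith) a3
    nlinarith [mul_le_mul_of_nonneg_right hle hk0.le]
  by_cases c2 : D ≤ 2 * k - 2
  · have a1 : 0 < (3 * N) ^ 2 - (3 + 6 * k ^ 2 - 6 * k) * (3 * N) +
        6 * k * (k - 1) * (4 * k - 5) := by
      obtain ⟨x, hx⟩ : ∃ x, 3 * N = 6 * k ^ 2 - 10 * k + 6 + x := ⟨_, (add_sub_cancel _ _).symm⟩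
      have hx0 : 0 ≤ x := by linarith
      rw [hx, hkj]
      nlinarith [mul_nonneg hx0 hj, mul_nonneg hx0 hj2, sq_nonneg x]
    have a2 : D * (3 * N + 3 - D - 2 * k) ≤ (2 * k - 2) * (3 * N + 3 - (2 * k - 2) - 2 * k) := by
      nlinarith [mul_nonneg (sub_nonneg.2 c2) (show 0 ≤ 3 * N + 5 - D - 4 * k by linarith)]
    have a3 : D * (2 * k) * (3 * N + 3 - D - 2 * k) - 6 * N * (N - 1) < 0 := by
      nlinarith [mul_le_mul_of_nonneg_left a2 hk0.le]
    have a4 := mul_pos_of_neg_of_neg (show D - 2 * k < 0 by linarith) a3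
    nlinarith [mul_le_mul_of_nonneg_right hle hk0.le]
  have c3 : D = 2 * k + 1 ∨ D = 2 * k - 1 := by omega
  have he0 := ho c3
  subst he0
  rcases c3 with rfl | rfl
  · have a1 : (3 * N) ^ 2 - (6 * k ^ 2 + 6 * k + 3) * (3 * N) + (24 * k ^ 3 + 18 * k ^ 2 + 12 * k) < 0 := by
      refine conv h2 h1 ?_ ?_
      · rw [hkj]; nlinarith
      · rw [hkj]; nlinarith
    unfold Ph
    nlinarith
  · have a1 : 0 < (3 * N) ^ 2 - (6 * k ^ 2 - 6 * k + 3) * (3 * N) +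
        (24 * k ^ 3 - 54 * k ^ 2 + 12 * k) := by
      obtain ⟨x, hx⟩ : ∃ x, 3 * N = 6 * k ^ 2 - 10 * k + 6 + x := ⟨_, (add_sub_cancel _ _).symm⟩
      have hx0 : 0 ≤ x := by linarith
      rw [hx, hkj]
      nlinarith [mul_nonneg hx0 hj, mul_nonneg hx0 hj2, sq_nonneg x]
    unfold Ph
    nlinarith

theorem ari {n k D0 : ℕ} (hn : 3 ≤ n) (hk : IsLeast {k : ℕ | 3 * n ≤ 6 * k ^ 2 + 2 * k + 1} k)
    (h0 : Opt n k D0) :
    2 ≤ D0 ∧ D0 + 1 ≤ n ∧ ∀ D, 1 ≤ D → D + 1 ≤ n →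
      FF n D0 * D < FF n D * D0 ∨ (FF n D0 * D = FF n D * D0 ∧ Opt n k D) := by
  have h1 : 3 * n ≤ 6 * k ^ 2 + 2 * k + 1 := hk.1
  have hk0 : 1 ≤ k := by
    rcases k with _ | k
    · simp at h1; omega
    · omega
  have h2 : 6 * (k - 1) ^ 2 + 2 * (k - 1) + 1 < 3 * n := by
    by_contra h
    have := hk.2 (not_lt.1 h : 3 * n ≤ 6 * (k - 1) ^ 2 + 2 * (k - 1) + 1)
    omega
  by_cases hs : k ≤ 10
  · exact small hn h1 h2 hs h0
  obtain ⟨j, rfl⟩ : ∃ j, k = j + 1 := ⟨k - 1, by omega⟩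
  rw [Nat.add_sub_cancel] at h2
  have hj : 10 ≤ j := by omega
  have hn2 : 4 * j + 150 ≤ n := by nlinarith
  have hD0 : D0 = 2 * (j + 1) := by
    rcases h0 with h0 | h0
    · exact h0.2
    · have := h0.1
      simp only [Finset.mem_insert, Finset.mem_singleton] at this
      omega
  subst hD0
  refine ⟨by omega, by omega, fun D hD hDn => ?_⟩
  by_cases hne : D = 2 * (j + 1)
  · subst hne
    exact Or.inr ⟨rfl, h0⟩
  left
  have e1 := FF_cast hDn
  have e2 := FF_cast (show 2 * (j + 1) + 1 ≤ n by omega)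
  rw [show 2 * (j + 1) % 2 = 0 by omega] at e2
  have h3 := bigZ (N := n) (k := (j : ℤ) + 1) (D := D) (e := 1 - (D % 2 : ℕ)) (by omega)
    (by exact_mod_cast h1) (by
      have : ((6 * j ^ 2 + 2 * j + 1 : ℕ) : ℤ) < (3 * n : ℕ) := by exact_mod_cast h2
      push_cast at this
      nlinarith) (by omega) (by omega) (by omega) (by omega) (by omega)
  rw [← e1] at h3
  push_cast at e2
  rw [← e2] at h3
  have h4 : (FF n (2 * (j + 1)) : ℤ) * D < FF n D * (2 * ((j : ℤ) + 1)) := by linarith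
  exact_mod_cast h4

end Pool.Agent.P.MP_aedb6c_co
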