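import Pool.Agent.P.MP_aedb6c_co.Low

/-! Paths with blown up centre. -/

set_option autoImplicit false

open Finset
open scoped Classical

namespace Pool.Agent.P.MP_aedb6c_co

/-- `G` is a path on `D + 1` layers, each a clique, all but the central ones single vertices. -/
structure Cen {V : Type} (G : SimpleGraph V) (D : ℕ) (pos : V → ℕ) : Prop where
  adj : ∀ u v, G.Adj u v ↔ u ≠ v ∧ pos u ≤ pos v + 1 ∧ pos v ≤ pos u + 1
  le : ∀ v, pos v ≤ D
  sur : ∀ i ≤ D, ∃ v, pos v = i
  uni : ∀ u v, pos u = pos v → u = v ∨ pos u = D / 2 ∨ pos u = (D + 1) / 2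

variable {V : Type} {G : SimpleGraph V} {D : ℕ} {pos : V → ℕ}

theorem Cen.walk (h : Cen G D pos) (m : ℕ) :
    ∀ u v, pos v = pos u + m → ∃ p : G.Walk u v, p.length ≤ max 1 m := by
  have one : ∀ u v, pos u ≤ pos v + 1 → pos v ≤ pos u + 1 → ∃ p : G.Walk u v, p.length ≤ 1 := by
    intro u v h1 h2
    by_cases e : u = v
    · subst e; exact ⟨.nil, by simp⟩
    · exact ⟨.cons ((h.adj u v).2 ⟨e, h1, h2⟩) .nil, by simp⟩
  induction m with
  | zero =>
    intro u v huv
    obtain ⟨p, hp⟩ := one u v (by omega) (by omega)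
    exact ⟨p, by omega⟩
  | succ m ih =>
    intro u v huv
    rcases Nat.eq_zero_or_pos m with rfl | hm
    · obtain ⟨p, hp⟩ := one u v (by omega) (by omega)
      exact ⟨p, by omega⟩
    · obtain ⟨z, hz⟩ := h.sur (pos u + m) (by have := h.le v; omega)
      obtain ⟨p, hp⟩ := ih u z hz
      obtain ⟨q, hq⟩ := one z v (by omega) (by omega)
      exact ⟨p.append q, by rw [SimpleGraph.Walk.length_append]; omega⟩

theorem Cen.walk' (h : Cen G D pos) (u v : V) :
    ∃ p : G.Walk u v, p.length ≤ max 1 ((pos u - pos v) + (pos v - pos u)) := by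
  rcases le_total (pos u) (pos v) with e | e
  · obtain ⟨p, hp⟩ := h.walk (pos v - pos u) u v (by omega)
    exact ⟨p, by omega⟩
  · obtain ⟨p, hp⟩ := h.walk (pos u - pos v) v u (by omega)
    exact ⟨p.reverse, by rw [SimpleGraph.Walk.length_reverse]; omega⟩

theorem Cen.conn (h : Cen G D pos) : G.Connected := by
  obtain ⟨v, -⟩ := h.sur 0 (Nat.zero_le _)
  have : Nonempty V := ⟨v⟩
  exact ⟨fun u v => (h.walk' u v).elim fun p _ => ⟨p⟩⟩

theorem Cen.lip (h : Cen G D pos) {u v : V} (p : G.Walk u v) :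
    (pos u - pos v) + (pos v - pos u) ≤ p.length := by
  induction p with
  | nil => simp
  | cons a p ih =>
    have := (h.adj _ _).1 a
    rw [SimpleGraph.Walk.length_cons]
    omega

theorem Cen.dist (h : Cen G D pos) {u v : V} (e : u ≠ v) :
    G.dist u v = max 1 ((pos u - pos v) + (pos v - pos u)) := by
  obtain ⟨p, hp⟩ := h.walk' u v
  obtain ⟨q, hq⟩ := h.conn.exists_walk_length_eq_dist u v
  have h1 := SimpleGraph.dist_le p
  have h2 := h.lip q
  have h3 := h.conn.pos_dist_of_ne e
  omega

theorem Cen.diam [Fintype V] (h : Cen G D pos) (hD : 1 ≤ D) : G.diam = D := by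
  have := h.conn.nonempty
  apply le_antisymm
  · obtain ⟨u, v, huv⟩ := G.exists_dist_eq_diam
    rw [← huv]
    by_cases e : u = v
    · rw [e, SimpleGraph.dist_self]; omega
    · have h1 := h.le u
      have h2 := h.le v
      rw [h.dist e]; omega
  · obtain ⟨u, hu⟩ := h.sur 0 (Nat.zero_le _)
    obtain ⟨v, hv⟩ := h.sur D le_rfl
    have e : u ≠ v := by rintro rfl; omega
    have h1 := SimpleGraph.dist_le_diam (SimpleGraph.connected_iff_ediam_ne_top.1 h.conn)
      (u := u) (v := v)
    rw [h.dist e] at h1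
    omega

theorem Cen.ss [Fintype V] (h : Cen G D pos) :
    D + 1 ≤ Fintype.card V ∧ FF (Fintype.card V) D = 3 * SS G := by
  have := h.conn.nonempty
  choose! x hx using h.sur
  have hf : Frame G D x := by
    intro i hi j hj
    by_cases e : i = j
    · rw [e, SimpleGraph.dist_self]; omega
    · have e' : x i ≠ x j := fun e' => e (by rw [← hx i hi, e', hx j hj])
      rw [h.dist e', hx i hi, hx j hj]; omega
  have ho : ∀ w, Out D x w → pos w = D / 2 ∨ pos w = (D + 1) / 2 := fun w hw =>
    (h.uni w (x (pos w)) (hx _ (h.le w)).symm).resolve_left (hw _ (h.le w))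
  refine ⟨(low h.conn hf).1, (low h.conn hf).2.2.2 ⟨fun w hw i hi => ?_, fun w w' hw hw' e => ?_⟩⟩
  · have := ho w hw
    rw [h.dist (hw i hi), h.dist (hw (D - i) (by omega)), hx i hi, hx (D - i) (by omega)]
    unfold tt
    omega
  · have h1 := ho w hw
    have h2 := ho w' hw'
    rw [h.dist e]
    omega

theorem cen_of_tight (hG : G.Connected) {x : ℕ → V} (hD : 2 ≤ D) (hx : Frame G D x)
    (ht : Tight G D x) : Cen G D (fun w => G.dist (x 0) w) := by
  have px : ∀ i ≤ D, G.dist (x 0) (x i) = i := fun i hi => by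
    rw [hx 0 (Nat.zero_le _) i hi]; omega
  have tri : ∀ w, ∀ i ≤ D, ∀ j ≤ D, G.dist w (x i) ≤ G.dist w (x j) + ((i - j) + (j - i)) ∧
      (i - j) + (j - i) ≤ G.dist w (x i) + G.dist w (x j) := by
    intro w i hi j hj
    have h1 := hG.dist_triangle (u := w) (v := x j) (w := x i)
    have h2 := hG.dist_triangle (u := x i) (v := w) (w := x j)
    rw [hx j hj i hi] at h1
    rw [hx i hi j hj, SimpleGraph.dist_comm (u := x i)] at h2
    omega
  have cen : ∀ w, Out D x w → G.dist w (x 0) = D / 2 ∨ G.dist w (x 0) = (D + 1) / 2 := by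
    intro w hw
    have a1 := ht.1 w hw (D / 2) (by omega)
    have a2 := ht.1 w hw (D / 2 - 1) (by omega)
    have p1 := hG.pos_dist_of_ne (hw (D / 2) (by omega))
    have p2 := hG.pos_dist_of_ne (hw (D - D / 2) (by omega))
    have p3 := hG.pos_dist_of_ne (hw (D / 2 - 1) (by omega))
    have p4 := hG.pos_dist_of_ne (hw (D - (D / 2 - 1)) (by omega))
    have t1 := tri w 0 (by omega) (D / 2) (by omega)
    have t2 := tri w 0 (by omega) (D - D / 2) (by omega)
    have t3 := tri w 0 (by omega) (D / 2 - 1) (by omega)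
    have t4 := tri w 0 (by omega) (D - (D / 2 - 1)) (by omega)
    unfold tt at a1 a2
    omega
  have out : ∀ w, Out D x w → ∀ i ≤ D,
      G.dist w (x i) = max 1 ((G.dist w (x 0) - i) + (i - G.dist w (x 0))) := by
    intro w hw i hi
    have a0 := cen w hw
    have a1 := ht.1 w hw i hi
    have a2 := ht.1 w hw 0 (by omega)
    rw [Nat.sub_zero] at a2
    have p1 := hG.pos_dist_of_ne (hw i hi)
    have p2 := hG.pos_dist_of_ne (hw (D - i) (by omega))
    have t1 := (tri w 0 (by omega) i hi).1
    have t2 := (tri w D le_rfl i hi).1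
    have t3 := (tri w 0 (by omega) (D - i) (by omega)).1
    have t4 := (tri w D le_rfl (D - i) (by omega)).1
    unfold tt at a1 a2
    omega
  have split : ∀ w, Out D x w ∨ ∃ i ≤ D, w = x i := by
    intro w
    by_cases h : Out D x w
    · exact Or.inl h
    · right
      simpa [Out] using h
  have dd : ∀ u v, u ≠ v → G.dist u v =
      max 1 ((G.dist (x 0) u - G.dist (x 0) v) + (G.dist (x 0) v - G.dist (x 0) u)) := by
    intro u v e
    rcases split u with hu | ⟨i, hi, rfl⟩ <;> rcases split v with hv | ⟨j, hj, rfl⟩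
    · have h1 := cen u hu
      have h2 := cen v hv
      rw [ht.2 u v hu hv e, SimpleGraph.dist_comm (v := u), SimpleGraph.dist_comm (v := v)]
      omega
    · rw [out u hu j hj, px j hj, SimpleGraph.dist_comm (v := u)]
    · rw [SimpleGraph.dist_comm, out v hv i hi, px i hi, SimpleGraph.dist_comm (v := v)]
      omega
    · have : i ≠ j := fun h => e (by rw [h])
      rw [hx i hi j hj, px i hi, px j hj]
      omega
  refine ⟨fun u v => ⟨fun h => ?_, fun h => ?_⟩, fun v => ?_, fun i hi => ⟨x i, px i hi⟩,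
    fun u v h => ?_⟩
  · have h1 := dd u v h.ne
    rw [SimpleGraph.dist_eq_one_iff_adj.2 h] at h1
    exact ⟨h.ne, by omega, by omega⟩
  · have h1 := dd u v h.1
    exact SimpleGraph.dist_eq_one_iff_adj.1 (by omega)
  · rcases split v with hv | ⟨j, hj, rfl⟩
    · have := cen v hv
      rw [SimpleGraph.dist_comm]; omega
    · rw [px j hj]; exact hj
  · rcases split u with hu | ⟨i, hi, rfl⟩
    · right
      rw [SimpleGraph.dist_comm]; exact cen u hu
    · rcases split v with hv | ⟨j, hj, rfl⟩
      · right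
        rw [h, SimpleGraph.dist_comm]; exact cen v hv
      · left
        rw [px i hi, px j hj] at h
        rw [h]

theorem Cen.rev (h : Cen G D pos) : Cen G D (fun v => D - pos v) := by
  refine ⟨fun u v => ?_, fun v => Nat.sub_le _ _, fun i hi => ?_, fun u v e => ?_⟩
  · have h1 := h.le u
    have h2 := h.le v
    rw [h.adj]
    exact and_congr_right fun _ => by omega
  · obtain ⟨v, hv⟩ := h.sur (D - i) (Nat.sub_le _ _)
    exact ⟨v, by omega⟩
  · have h1 := h.le u
    have h2 := h.le v
    rcases h.uni u v (by omega) with h3 | h3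
    · exact Or.inl h3
    · right; omega

theorem Cen.iso {W : Type} {H : SimpleGraph W} (h : Cen G D pos) (e : H ≃g G) :
    Cen H D (fun w => pos (e w)) := by
  refine ⟨fun u v => ?_, fun v => h.le _, fun i hi => ?_, fun u v e' => ?_⟩
  · rw [← e.map_adj_iff, h.adj, e.injective.ne_iff]
  · obtain ⟨v, hv⟩ := h.sur i hi
    exact ⟨e.symm v, by simpa using hv⟩
  · rcases h.uni _ _ e' with h3 | h3
    · exact Or.inl (e.injective h3)
    · exact Or.inr h3

/-- The size of a layer. -/
noncomputable def fib [Fintype V] (pos : V → ℕ) (i : ℕ) : ℕ := (univ.filter fun v => pos v = i).card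

theorem Cen.fib_pos [Fintype V] (h : Cen G D pos) {i : ℕ} (hi : i ≤ D) : 1 ≤ fib pos i := by
  obtain ⟨v, hv⟩ := h.sur i hi
  exact card_pos.2 ⟨v, by simpa using hv⟩

theorem Cen.fib_zero [Fintype V] (h : Cen G D pos) {i : ℕ} (hi : D < i) : fib pos i = 0 := by
  refine card_eq_zero.2 (filter_eq_empty_iff.2 fun v _ e => ?_)
  have := h.le v
  omega

theorem Cen.fib_one [Fintype V] (h : Cen G D pos) {i : ℕ} (hi : i ≤ D) (h1 : i ≠ D / 2)
    (h2 : i ≠ (D + 1) / 2) : fib pos i = 1 := by
  refine le_antisymm (card_le_one.2 fun u hu v hv => ?_) (h.fib_pos hi)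
  have e1 := (mem_filter.1 hu).2
  have e2 := (mem_filter.1 hv).2
  exact (h.uni u v (by omega)).resolve_right (by omega)

theorem Cen.card [Fintype V] (h : Cen G D pos) :
    Fintype.card V = ∑ i ∈ range (D + 1), fib pos i :=
  card_eq_sum_card_fiberwise fun v _ => by
    simpa [Nat.lt_succ_iff] using h.le v

theorem Cen.card_odd [Fintype V] {m : ℕ} (h : Cen G (2 * m + 1) pos) :
    Fintype.card V = fib pos m + fib pos (m + 1) + m + m := by
  have h1 : m ∈ range (2 * m + 1 + 1) := mem_range.2 (by omega)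
  have h2 : m + 1 ∈ (range (2 * m + 1 + 1)).erase m :=
    mem_erase.2 ⟨by omega, mem_range.2 (by omega)⟩
  have h3 : ∑ i ∈ ((range (2 * m + 1 + 1)).erase m).erase (m + 1), fib pos i =
      ∑ _i ∈ ((range (2 * m + 1 + 1)).erase m).erase (m + 1), 1 :=
    sum_congr rfl fun i hi => by
      simp only [mem_erase, mem_range] at hi
      exact h.fib_one (by omega) (by omega) (by omega)
  rw [h.card, ← add_sum_erase _ _ h1, ← add_sum_erase _ _ h2, h3, ← card_eq_sum_ones,
    card_erase_of_mem h2, card_erase_of_mem h1, card_range]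
  omega

theorem Cen.iso_of [Fintype V] {W : Type} [Fintype W] {H : SimpleGraph W} {pos' : W → ℕ}
    (h : Cen G D pos) (h' : Cen H D pos') (hc : Fintype.card V = Fintype.card W)
    (hf : (D + 1) / 2 ≠ D / 2 → fib pos ((D + 1) / 2) = fib pos' ((D + 1) / 2)) :
    Nonempty (G ≃g H) := by
  have a1 : ∀ i, i ≠ D / 2 → fib pos i = fib pos' i := by
    intro i hi
    by_cases e : i = (D + 1) / 2
    · subst e; exact hf hi
    · rcases le_or_gt i D with e' | e'
      · rw [h.fib_one e' hi e, h'.fib_one e' hi e]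
      · rw [h.fib_zero e', h'.fib_zero e']
  have a2 : ∀ i, fib pos i = fib pos' i := by
    intro i
    by_cases e : i = D / 2
    · have h1 : i ∈ range (D + 1) := mem_range.2 (by omega)
      have h2 : ∑ j ∈ (range (D + 1)).erase i, fib pos j =
          ∑ j ∈ (range (D + 1)).erase i, fib pos' j :=
        sum_congr rfl fun j hj => a1 j (e ▸ ne_of_mem_erase hj)
      rw [h.card, h'.card, ← add_sum_erase _ _ h1, ← add_sum_erase _ _ h1, h2] at hc
      exact Nat.add_right_cancel hc
    · exact a1 i e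
  have a3 : ∀ i, Fintype.card {v // pos v = i} = Fintype.card {v // pos' v = i} := fun i => by
    rw [Fintype.card_subtype, Fintype.card_subtype]; exact a2 i
  let e : V ≃ W := Equiv.ofFiberEquiv (f := pos) (g := pos') fun i => Fintype.equivOfCardEq (a3 i)
  have he : ∀ v, pos' (e v) = pos v := Equiv.ofFiberEquiv_map _
  refine ⟨⟨e, fun {u v} => ?_⟩⟩
  rw [h.adj, h'.adj, he, he, e.injective.ne_iff]

end Pool.Agent.P.MP_aedb6c_co
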