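import Mathlib

/-! Diameter over average distance: definitions. -/

set_option autoImplicit false

namespace Pool.Agent.P.MP_aedb6c_co

/-- The average distance: the mean of `d(u,v)` over pairs of distinct vertices. The double sum
counts every unordered pair twice and the diagonal terms vanish. -/
noncomputable def avgDist {V : Type} [Fintype V] (G : SimpleGraph V) : ℝ :=
  (∑ u : V, ∑ v : V, (G.dist u v : ℝ)) / ((Fintype.card V : ℝ) * ((Fintype.card V : ℝ) - 1))

/-- Diameter over average distance. -/
noncomputable def ratio {V : Type} [Fintype V] (G : SimpleGraph V) : ℝ :=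
  (G.diam : ℝ) / avgDist G

/-- The bug: the complete graph on `0, …, p - 1` without the edge `01`, a path on the `k₁` vertices
`p, …, p + k₁ - 1` whose end `p` is joined to `0`, and a path on the `k₂` vertices
`p + k₁, …, p + k₁ + k₂ - 1` whose end `p + k₁` is joined to `1`. -/
def Bug (p k₁ k₂ : ℕ) : SimpleGraph (Fin (p + k₁ + k₂)) :=
  SimpleGraph.fromRel fun i j =>
    (i.val < p ∧ j.val < p ∧ i.val + j.val ≠ 1) ∨
    (i.val = 0 ∧ j.val = p ∧ 0 < k₁) ∨
    (i.val = 1 ∧ j.val = p + k₁) ∨
    (p ≤ i.val ∧ j.val = i.val + 1 ∧ j.val ≠ p + k₁)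

/-- The complete graph on `0, …, a + b - 1`, a path on the `m` vertices `a + b, …, a + b + m - 1`
whose end `a + b` is joined to all of `0, …, a - 1`, and a path on the `m` vertices
`a + b + m, …, a + b + 2 m - 1` whose end `a + b + m` is joined to all of `a, …, a + b - 1`. -/
def Twin (a b m : ℕ) : SimpleGraph (Fin (a + b + m + m)) :=
  SimpleGraph.fromRel fun i j =>
    (i.val < a + b ∧ j.val < a + b) ∨
    (i.val < a ∧ j.val = a + b) ∨
    (a ≤ i.val ∧ i.val < a + b ∧ j.val = a + b + m) ∨
    (a + b ≤ i.val ∧ j.val = i.val + 1 ∧ j.val ≠ a + b + m)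

end Pool.Agent.P.MP_aedb6c_co
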