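import Pool.Agent.P.MP_aedb6c_co.Ari

/-! The least sum of distances for given order and diameter, with the case of equality. -/

set_option autoImplicit false

open Finset
open scoped Classical

namespace Pool.Agent.P.MP_aedb6c_co

/-- The sum of all distances over ordered pairs. -/
noncomputable def SS {V : Type} [Fintype V] (G : SimpleGraph V) : ℕ := ∑ u, ∑ v, G.dist u v

def tt (D i : ℕ) : ℕ := max ((D - 2 * i) + (2 * i - D)) 2

theorem sum_tt (D : ℕ) : ∑ i ∈ range (D + 1), tt D i = (D + 1) ^ 2 / 2 + 2 := by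
  induction D using Nat.twoStepInduction with
  | zero => simp [tt]
  | one => simp [tt, sum_range_succ]
  | more D ih _ =>
    rw [sum_range_succ, sum_range_succ']
    have e1 : ∑ i ∈ range (D + 1), tt (D + 2) (i + 1) = ∑ i ∈ range (D + 1), tt D i :=
      sum_congr rfl fun i _ => by unfold tt; omega
    have e2 : (D + 2 + 1) ^ 2 = (D + 1) ^ 2 + 2 * (2 * D + 4) := by ring
    rw [e1, ih, e2]
    unfold tt
    omega

theorem sum_lin (D : ℕ) : 2 * ∑ i ∈ range (D + 1), (D + 1 - i) = (D + 1) * (D + 2) := by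
  induction D with
  | zero => simp
  | succ D ih =>
    rw [sum_range_succ']
    have e1 : ∑ i ∈ range (D + 1), (D + 1 + 1 - (i + 1)) = ∑ i ∈ range (D + 1), (D + 1 - i) :=
      sum_congr rfl fun i _ => by omega
    rw [e1, mul_add, ih, Nat.sub_zero]
    ring

theorem sum_abs (D : ℕ) :
    3 * ∑ i ∈ range (D + 1), ∑ j ∈ range (D + 1), ((i - j) + (j - i)) = D * (D + 1) * (D + 2) := by
  induction D with
  | zero => simp
  | succ D ih =>
    rw [sum_range_succ, sum_range_succ (fun j => (D + 1 - j) + (j - (D + 1)))]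
    simp only [sum_range_succ (n := D + 1), sum_add_distrib (f := fun i =>
      ∑ j ∈ range (D + 1), ((i - j) + (j - i)))]
    have e1 : ∑ i ∈ range (D + 1), ((i - (D + 1)) + (D + 1 - i)) =
        ∑ i ∈ range (D + 1), (D + 1 - i) :=
      sum_congr rfl fun i hi => by have := mem_range.1 hi; omega
    have e2 : ∑ i ∈ range (D + 1), ((D + 1 - i) + (i - (D + 1))) =
        ∑ i ∈ range (D + 1), (D + 1 - i) :=
      sum_congr rfl fun i hi => by have := mem_range.1 hi; omega
    rw [e1, e2, Nat.sub_self]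
    have := sum_lin D
    nlinarith

theorem sum_ne {V : Type} (R : Finset V) :
    ∑ w ∈ R, ∑ w' ∈ R, (if w = w' then 0 else 1) = R.card * (R.card - 1) := by
  rw [← smul_eq_mul, ← sum_const]
  refine sum_congr rfl fun w hw => ?_
  rw [← add_sum_erase _ _ hw, if_pos rfl, zero_add, ← card_erase_of_mem hw, card_eq_sum_ones]
  exact sum_congr rfl fun w' hw' => if_neg (ne_of_mem_erase hw').symm

variable {V : Type} [Fintype V] {G : SimpleGraph V}

/-- A geodesic with `D + 1` vertices. -/
def Frame (G : SimpleGraph V) (D : ℕ) (x : ℕ → V) : Prop :=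
  ∀ i ≤ D, ∀ j ≤ D, G.dist (x i) (x j) = (i - j) + (j - i)

def Out (D : ℕ) (x : ℕ → V) (w : V) : Prop := ∀ i ≤ D, w ≠ x i

def Tight (G : SimpleGraph V) (D : ℕ) (x : ℕ → V) : Prop :=
  (∀ w, Out D x w → ∀ i ≤ D, G.dist w (x i) + G.dist w (x (D - i)) = tt D i) ∧
  ∀ w w', Out D x w → Out D x w' → w ≠ w' → G.dist w w' = 1

omit [Fintype V] in
theorem Frame.inj {D : ℕ} {x : ℕ → V} (hx : Frame G D x) {i j : ℕ} (hi : i ≤ D) (hj : j ≤ D)
    (h : x i = x j) : i = j := by
  have := hx i hi j hj
  rw [h, SimpleGraph.dist_self] at this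
  omega

omit [Fintype V] in
theorem exists_frame (hG : G.Connected) : ∃ x, Frame G G.diam x := by
  have := hG.nonempty
  obtain ⟨u, v, huv⟩ := G.exists_dist_eq_diam
  obtain ⟨p, hp⟩ := hG.exists_walk_length_eq_dist u v
  rw [huv] at hp
  have up : ∀ i m, i + m ≤ G.diam → G.dist (p.getVert i) (p.getVert (i + m)) ≤ m := by
    intro i m
    induction m with
    | zero => intro _; simp
    | succ m ih =>
      intro h
      have h1 := ih (by omega)
      have h2 := SimpleGraph.dist_eq_one_iff_adj.2 (p.adj_getVert_succ (i := i + m) (by omega))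
      have h3 := hG.dist_triangle (u := p.getVert i) (v := p.getVert (i + m))
        (w := p.getVert (i + m + 1))
      rw [← add_assoc]
      omega
  have main : ∀ i j, i ≤ j → j ≤ G.diam → G.dist (p.getVert i) (p.getVert j) = j - i := by
    intro i j hij hj
    have h1 := up i (j - i) (by omega)
    have h2 := up 0 i (by omega)
    have h3 := up j (G.diam - j) (by omega)
    rw [show i + (j - i) = j by omega] at h1
    rw [zero_add, p.getVert_zero] at h2
    rw [show j + (G.diam - j) = p.length by omega, p.getVert_length] at h3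
    have h4 := hG.dist_triangle (u := u) (v := p.getVert i) (w := v)
    have h5 := hG.dist_triangle (u := p.getVert i) (v := p.getVert j) (w := v)
    omega
  refine ⟨p.getVert, fun i hi j hj => ?_⟩
  rcases le_total i j with h | h
  · rw [main i j h hj]; omega
  · rw [SimpleGraph.dist_comm, main j i h hi]; omega

theorem low (hG : G.Connected) {D : ℕ} {x : ℕ → V} (hx : Frame G D x) :
    D + 1 ≤ Fintype.card V ∧ FF (Fintype.card V) D ≤ 3 * SS G ∧
      (FF (Fintype.card V) D = 3 * SS G ↔ Tight G D x) := by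
  set P : Finset V := (range (D + 1)).image x with hP
  have hinj : Set.InjOn x (range (D + 1) : Finset ℕ) := fun i hi j hj h =>
    hx.inj (by simpa [Nat.lt_succ_iff] using hi) (by simpa [Nat.lt_succ_iff] using hj) h
  have hcP : P.card = D + 1 := by rw [hP, card_image_of_injOn hinj, card_range]
  have hcR : Pᶜ.card = Fintype.card V - (D + 1) := by rw [card_compl, hcP]
  have hout : ∀ w, w ∈ Pᶜ ↔ Out D x w := by
    intro w
    simp only [hP, mem_compl, mem_image, mem_range, Nat.lt_succ_iff, not_exists, not_and, Out]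
    exact ⟨fun h i hi e => h i hi e.symm, fun h i hi e => h i hi e.symm⟩
  have sP : ∀ f : V → ℕ, ∑ u ∈ P, f u = ∑ i ∈ range (D + 1), f (x i) := fun f =>
    sum_image hinj
  have dec : SS G = ∑ i ∈ range (D + 1), ∑ j ∈ range (D + 1), ((i - j) + (j - i)) +
      ∑ w ∈ Pᶜ, ∑ i ∈ range (D + 1), (G.dist w (x i) + G.dist w (x (D - i))) +
      ∑ w ∈ Pᶜ, ∑ w' ∈ Pᶜ, G.dist w w' := by
    unfold SS
    rw [← sum_add_sum_compl P]
    simp only [← sum_add_sum_compl P (fun v => G.dist _ v), sum_add_distrib, sP]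
    have e1 : ∑ i ∈ range (D + 1), ∑ j ∈ range (D + 1), G.dist (x i) (x j) =
        ∑ i ∈ range (D + 1), ∑ j ∈ range (D + 1), (i - j) +
        ∑ i ∈ range (D + 1), ∑ j ∈ range (D + 1), (j - i) := by
      rw [← sum_add_distrib]
      refine sum_congr rfl fun i hi => ?_
      rw [← sum_add_distrib]
      exact sum_congr rfl fun j hj => hx i (Nat.lt_succ_iff.1 (mem_range.1 hi)) j
        (Nat.lt_succ_iff.1 (mem_range.1 hj))
    have e2 : ∑ i ∈ range (D + 1), ∑ w ∈ Pᶜ, G.dist (x i) w =
        ∑ w ∈ Pᶜ, ∑ i ∈ range (D + 1), G.dist w (x (D - i)) := by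
      rw [sum_comm]
      refine sum_congr rfl fun w _ => ?_
      rw [← sum_range_reflect]
      exact sum_congr rfl fun i _ => by rw [SimpleGraph.dist_comm, Nat.add_sub_cancel]
    rw [e1, e2]
    ring
  have b1 : ∀ w ∈ Pᶜ, ∀ i ∈ range (D + 1), tt D i ≤ G.dist w (x i) + G.dist w (x (D - i)) := by
    intro w hw i hi
    have hi' := Nat.lt_succ_iff.1 (mem_range.1 hi)
    have ho := (hout w).1 hw
    have h1 := hG.pos_dist_of_ne (ho i hi')
    have h2 := hG.pos_dist_of_ne (ho (D - i) (by omega))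
    have h3 := hG.dist_triangle (u := x i) (v := w) (w := x (D - i))
    rw [hx i hi' (D - i) (by omega), SimpleGraph.dist_comm (u := x i)] at h3
    unfold tt
    omega
  have b2 : ∀ w ∈ Pᶜ, ∀ w' ∈ Pᶜ, (if w = w' then 0 else 1) ≤ G.dist w w' := by
    intro w _ w' _
    split_ifs with h
    · exact Nat.zero_le _
    · exact hG.pos_dist_of_ne h
  have c1 := sum_le_sum fun w hw => sum_le_sum (b1 w hw)
  have c2 := sum_le_sum fun w hw => sum_le_sum (b2 w hw)
  have d1 := sum_eq_sum_iff_of_le fun w hw => sum_le_sum (b1 w hw)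
  have d2 := sum_eq_sum_iff_of_le fun w hw => sum_le_sum (b2 w hw)
  have f1 : ∑ _w ∈ Pᶜ, ∑ i ∈ range (D + 1), tt D i =
      (Fintype.card V - (D + 1)) * ((D + 1) ^ 2 / 2 + 2) := by
    rw [sum_const, smul_eq_mul, hcR, sum_tt]
  have f2 := sum_ne Pᶜ
  rw [hcR] at f2
  have f0 := sum_abs D
  have hFF : FF (Fintype.card V) D =
      3 * ∑ i ∈ range (D + 1), ∑ j ∈ range (D + 1), ((i - j) + (j - i)) +
      3 * ∑ _w ∈ Pᶜ, ∑ i ∈ range (D + 1), tt D i +
      3 * ∑ w ∈ Pᶜ, ∑ w' ∈ Pᶜ, (if w = w' then 0 else 1) := by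
    rw [f0, f1, f2, FF]
  refine ⟨hcP ▸ card_le_univ P, by omega, fun h => ⟨fun w hw i hi => ?_, fun w w' hw hw' hne => ?_⟩,
    fun h => ?_⟩
  · have := d1.1 (by omega) w ((hout w).2 hw)
    exact ((sum_eq_sum_iff_of_le (b1 w ((hout w).2 hw))).1 this i
      (mem_range.2 (Nat.lt_succ_iff.2 hi))).symm
  · have := d2.1 (by omega) w ((hout w).2 hw)
    have h2 := (sum_eq_sum_iff_of_le (b2 w ((hout w).2 hw))).1 this w' ((hout w').2 hw')
    rw [if_neg hne] at h2
    exact h2.symm
  · have g1 := d1.2 fun w hw => sum_congr rfl fun i hi =>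
      (h.1 w ((hout w).1 hw) i (Nat.lt_succ_iff.1 (mem_range.1 hi))).symm
    have g2 := d2.2 fun w hw => sum_congr rfl fun w' hw' => by
      split_ifs with e
      · rw [e, SimpleGraph.dist_self]
      · exact (h.2 w w' ((hout w).1 hw) ((hout w').1 hw') e).symm
    omega

end Pool.Agent.P.MP_aedb6c_co
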