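import Pool.Agent.P.MP_aedb6c_co.Cen
import Pool.Agent.P.MP_aedb6c_co.Defs

/-! The classification of the graphs with the largest ratio. -/

set_option autoImplicit false

open Finset
open scoped Classical

namespace Pool.Agent.P.MP_aedb6c_co

def posB (p k₁ i : ℕ) : ℕ :=
  if i = 0 then k₁ else if i = 1 then k₁ + 2 else if i < p then k₁ + 1
  else if i < p + k₁ then p + k₁ - 1 - i else i - (p + k₁) + k₁ + 3

theorem cen_bug {p k₁ k₂ : ℕ} (hp : 3 ≤ p) (h1 : k₁ ≤ k₂) (h2 : k₂ ≤ k₁ + 1) :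
    Cen (Bug p k₁ k₂) (k₁ + k₂ + 2) (fun i => posB p k₁ i.val) := by
  refine ⟨fun u v => ?_, fun v => ?_, fun i hi => ?_, fun u v => ?_⟩
  · have hu := u.isLt
    have hv := v.isLt
    simp only [Bug, SimpleGraph.fromRel_adj, ne_eq, Fin.ext_iff, posB]
    split_ifs <;> omega
  · have hv := v.isLt
    simp only [posB]
    split_ifs <;> omega
  · by_cases c1 : i < k₁
    · refine ⟨⟨p + k₁ - 1 - i, by omega⟩, ?_⟩
      simp only [posB]
      split_ifs <;> omega
    by_cases c2 : i = k₁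
    · exact ⟨⟨0, by omega⟩, by simp [posB, c2]⟩
    by_cases c3 : i = k₁ + 1
    · exact ⟨⟨2, by omega⟩, by simp [posB, c3, show 2 < p by omega]⟩
    by_cases c4 : i = k₁ + 2
    · exact ⟨⟨1, by omega⟩, by simp [posB, c4]⟩
    · refine ⟨⟨p + i - 3, by omega⟩, ?_⟩
      simp only [posB]
      split_ifs <;> omega
  · have hu := u.isLt
    have hv := v.isLt
    simp only [Fin.ext_iff, posB]
    split_ifs <;> omega

theorem fib_bug {p k₁ k₂ : ℕ} (hp : 3 ≤ p) :
    fib (fun i : Fin (p + k₁ + k₂) => posB p k₁ i.val) (k₁ + 2) = 1 := by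
  refine card_eq_one.2 ⟨⟨1, by omega⟩, ?_⟩
  ext u
  have hu := u.isLt
  simp only [mem_filter, mem_univ, true_and, mem_singleton, Fin.ext_iff, posB]
  split_ifs <;> omega

def posT (a b m i : ℕ) : ℕ :=
  if i < a then m else if i < a + b then m + 1
  else if i < a + b + m then a + b + m - 1 - i else i - (a + b + m) + m + 2

theorem cen_twin {a b m : ℕ} (ha : 1 ≤ a) (hb : 1 ≤ b) (hm : 1 ≤ m) :
    Cen (Twin a b m) (2 * m + 1) (fun i => posT a b m i.val) := by
  refine ⟨fun u v => ?_, fun v => ?_, fun i hi => ?_, fun u v => ?_⟩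
  · have hu := u.isLt
    have hv := v.isLt
    simp only [Twin, SimpleGraph.fromRel_adj, ne_eq, Fin.ext_iff, posT]
    split_ifs <;> omega
  · have hv := v.isLt
    simp only [posT]
    split_ifs <;> omega
  · by_cases c1 : i < m
    · refine ⟨⟨a + b + m - 1 - i, by omega⟩, ?_⟩
      simp only [posT]
      split_ifs <;> omega
    by_cases c2 : i = m
    · refine ⟨⟨0, by omega⟩, ?_⟩
      simp only [posT]
      split_ifs <;> omega
    by_cases c3 : i = m + 1
    · refine ⟨⟨a, by omega⟩, ?_⟩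
      simp only [posT]
      split_ifs <;> omega
    · refine ⟨⟨a + b + i - 2, by omega⟩, ?_⟩
      simp only [posT]
      split_ifs <;> omega
  · have hu := u.isLt
    have hv := v.isLt
    simp only [Fin.ext_iff, posT]
    split_ifs <;> omega

theorem fib_twin (a b m : ℕ) :
    fib (fun i : Fin (a + b + m + m) => posT a b m i.val) m = a := by
  have e : (univ.filter fun i : Fin (a + b + m + m) => posT a b m i.val = m) =
      univ.filter fun i : Fin (a + b + m + m) => i.val < a := by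
    ext u
    have hu := u.isLt
    simp only [mem_filter, mem_univ, true_and, posT]
    split_ifs <;> omega
  unfold fib
  rw [e, Fin.card_filter_val_lt]
  omega

variable {V : Type} [Fintype V] {G : SimpleGraph V}

theorem cen_even {k : ℕ} (hk : 1 ≤ k) (hn : 2 * k + 1 ≤ Fintype.card V) :
    (∃ pos, Cen G (2 * k) pos) ↔
      Nonempty (G ≃g Bug (Fintype.card V + 2 - 2 * k) (k - 1) (k - 1)) := by
  have hb := cen_bug (p := Fintype.card V + 2 - 2 * k) (k₁ := k - 1) (k₂ := k - 1) (by omega)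
    le_rfl (by omega)
  rw [show k - 1 + (k - 1) + 2 = 2 * k by omega] at hb
  refine ⟨fun ⟨pos, h⟩ => h.iso_of hb (by rw [Fintype.card_fin]; omega) fun e => by omega,
    fun ⟨e⟩ => ⟨_, hb.iso e⟩⟩

theorem cen_odd {m : ℕ} (hm : 1 ≤ m) (hn : 2 * m + 2 ≤ Fintype.card V) :
    (∃ pos, Cen G (2 * m + 1) pos) ↔
      (Nonempty (G ≃g Bug (Fintype.card V + 1 - 2 * m) (m - 1) m) ∨
        ∃ a b : ℕ, 2 ≤ a ∧ 2 ≤ b ∧ a + b + 2 * m = Fintype.card V ∧
          Nonempty (G ≃g Twin a b m)) := by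
  have hp : 3 ≤ Fintype.card V + 1 - 2 * m := by omega
  have hb := cen_bug (p := Fintype.card V + 1 - 2 * m) (k₁ := m - 1) (k₂ := m) hp
    (by omega) (by omega)
  have hf := fib_bug (p := Fintype.card V + 1 - 2 * m) (k₁ := m - 1) (k₂ := m) hp
  rw [show m - 1 + m + 2 = 2 * m + 1 by omega] at hb
  rw [show m - 1 + 2 = m + 1 by omega] at hf
  have e1 : (2 * m + 1 + 1) / 2 = m + 1 := by omega
  have one : ∀ pos, Cen G (2 * m + 1) pos → fib pos (m + 1) = 1 →
      Nonempty (G ≃g Bug (Fintype.card V + 1 - 2 * m) (m - 1) m) := fun pos h h1 =>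
    h.iso_of hb (by rw [Fintype.card_fin]; omega) fun _ => by rw [e1, h1, hf]
  constructor
  · rintro ⟨pos, h⟩
    have c := h.card_odd
    have p1 := h.fib_pos (i := m) (by omega)
    have p2 := h.fib_pos (i := m + 1) (by omega)
    by_cases c1 : fib pos (m + 1) = 1
    · exact Or.inl (one pos h c1)
    by_cases c2 : fib pos m = 1
    · refine Or.inl (one _ h.rev ?_)
      rw [← c2]
      unfold fib
      congr 1
      ext u
      have := h.le u
      simp only [mem_filter, mem_univ, true_and]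
      omega
    refine Or.inr ⟨fib pos m, fib pos (m + 1), by omega, by omega, by omega, ?_⟩
    have ht := cen_twin p1 p2 hm
    refine h.iso_of ht (by rw [Fintype.card_fin]; omega) fun _ => ?_
    have c' := ht.card_odd
    rw [fib_twin, Fintype.card_fin] at c'
    rw [e1]
    omega
  · rintro (⟨⟨e⟩⟩ | ⟨a, b, ha, hb', -, ⟨e⟩⟩)
    · exact ⟨_, hb.iso e⟩
    · exact ⟨_, (cen_twin (by omega) (by omega) hm).iso e⟩

theorem basic (hn : 3 ≤ Fintype.card V) (hG : G.Connected) :
    1 ≤ G.diam ∧ G.diam + 1 ≤ Fintype.card V ∧ FF (Fintype.card V) G.diam ≤ 3 * SS G ∧ 0 < SS G ∧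
      (2 ≤ G.diam → FF (Fintype.card V) G.diam = 3 * SS G → ∃ pos, Cen G G.diam pos) := by
  have : Nontrivial V := Fintype.one_lt_card_iff_nontrivial.1 (by omega)
  have h1 : 1 ≤ G.diam := Nat.pos_of_ne_zero (SimpleGraph.connected_iff_diam_ne_zero.1 hG)
  obtain ⟨x, hx⟩ := exists_frame hG
  obtain ⟨h2, h3, h4⟩ := low hG hx
  refine ⟨h1, h2, h3, ?_, fun h5 h6 => ⟨_, cen_of_tight hG h5 hx (h4.1 h6)⟩⟩
  have : 0 < G.diam * (G.diam + 1) * (G.diam + 2) := by positivity
  unfold FF at h3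
  omega

theorem ratio_le {W : Type} [Fintype W] {H : SimpleGraph W} (hn : 3 ≤ Fintype.card V)
    (hc : Fintype.card W = Fintype.card V) (hG : 0 < SS G) (hH : 0 < SS H) :
    ratio H ≤ ratio G ↔ H.diam * SS G ≤ G.diam * SS H := by
  have e1 : (∑ u, ∑ v, (G.dist u v : ℝ)) = SS G := by simp [SS]
  have e2 : (∑ u, ∑ v, (H.dist u v : ℝ)) = SS H := by simp [SS]
  have h3 : (3 : ℝ) ≤ Fintype.card V := by exact_mod_cast hn
  have hc0 : (0 : ℝ) < (Fintype.card V : ℝ) * ((Fintype.card V : ℝ) - 1) :=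
    mul_pos (by linarith) (by linarith)
  have hG' : (0 : ℝ) < SS G := by exact_mod_cast hG
  have hH' : (0 : ℝ) < SS H := by exact_mod_cast hH
  unfold ratio avgDist
  rw [e1, e2, hc, div_le_div_iff₀ (div_pos hH' hc0) (div_pos hG' hc0), ← mul_div_assoc,
    ← mul_div_assoc, div_le_div_iff_of_pos_right hc0]
  exact_mod_cast Iff.rfl

theorem main0 {k : ℕ} (hn : 3 ≤ Fintype.card V)
    (hk : IsLeast {k : ℕ | 3 * Fintype.card V ≤ 6 * k ^ 2 + 2 * k + 1} k) :
    (G.Connected ∧ ∀ (W : Type) [Fintype W], Fintype.card W = Fintype.card V →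
        ∀ H : SimpleGraph W, H.Connected → ratio H ≤ ratio G) ↔
      ∃ D, Opt (Fintype.card V) k D ∧ ∃ pos, Cen G D pos := by
  constructor
  · rintro ⟨hG, hmax⟩
    obtain ⟨g1, g2, g3, g4, g5⟩ := basic hn hG
    have hk0 : 1 ≤ k := by
      have h1 : 3 * Fintype.card V ≤ 6 * k ^ 2 + 2 * k + 1 := hk.1
      rcases k with _ | k
      · simp at h1; omega
      · omega
    obtain ⟨D0, h0⟩ : ∃ D0, Opt (Fintype.card V) k D0 := by
      by_cases c : Fintype.card V ∈ ({4, 10, 21, 54, 134} : Finset ℕ)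
      · refine ⟨2 * k - 1, Or.inr ⟨?_, by omega⟩⟩
        simp only [mem_insert, mem_singleton] at c ⊢
        omega
      · exact ⟨2 * k, Or.inl ⟨c, rfl⟩⟩
    obtain ⟨a1, a2, a3⟩ := ari hn hk h0
    have hb := cen_bug (p := Fintype.card V + 2 - D0) (k₁ := D0 / 2 - 1) (k₂ := (D0 + 1) / 2 - 1)
      (by omega) (by omega) (by omega)
    rw [show D0 / 2 - 1 + ((D0 + 1) / 2 - 1) + 2 = D0 by omega] at hb
    have hc : Fintype.card (Fin (Fintype.card V + 2 - D0 + (D0 / 2 - 1) + ((D0 + 1) / 2 - 1))) =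
        Fintype.card V := by rw [Fintype.card_fin]; omega
    have h1 := (ratio_le hn hc g4 (basic (by omega) hb.conn).2.2.2.1).1 (hmax _ hc _ hb.conn)
    have h2 := hb.ss.2
    rw [hb.diam (by omega)] at h1
    rw [hc] at h2
    have h3 : D0 * (3 * SS G) ≤ G.diam * FF (Fintype.card V) D0 := by rw [h2]; nlinarith
    have h4 := Nat.mul_le_mul_left D0 g3
    rcases a3 G.diam g1 g2 with h5 | ⟨h5, h6⟩
    · nlinarith
    · refine ⟨G.diam, h6, g5 (ari hn hk h6).1 (le_antisymm g3 ?_)⟩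
      exact Nat.le_of_mul_le_mul_left (by nlinarith : D0 * (3 * SS G) ≤ D0 * _) (by omega)
  · rintro ⟨D0, h0, pos, h⟩
    obtain ⟨a1, a2, a3⟩ := ari hn hk h0
    refine ⟨h.conn, fun W _ hc H hH => ?_⟩
    obtain ⟨g1, g2, g3, g4, -⟩ := basic (by omega) hH
    rw [hc] at g2 g3
    rw [ratio_le hn hc (basic hn h.conn).2.2.2.1 g4, h.diam (by omega)]
    have h2 := h.ss.2
    have h4 := Nat.mul_le_mul_left D0 g3
    have h5 : FF (Fintype.card V) D0 * H.diam ≤ FF (Fintype.card V) H.diam * D0 := by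
      rcases a3 H.diam g1 g2 with h5 | h5
      · exact h5.le
      · exact h5.1.le
    rw [h2] at h5
    nlinarith

end Pool.Agent.P.MP_aedb6c_co
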